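import Mathlib

/-!
# A regular graph whose vertices lie in pairwise different numbers of triangles
-/

set_option autoImplicit false

namespace Pool.Agent.J6H37.TD

open Finset

/-- The triangle-degree of the vertex `v`: the number of triangles (sets of three pairwise adjacent
vertices) which contain `v`. -/
def tdeg {n : ℕ} (G : SimpleGraph (Fin n)) [DecidableRel G.Adj] (v : Fin n) : ℕ :=
  ((G.cliqueFinset 3).filter fun s => v ∈ s).card

/-- the pairs of adjacent neighbours -/
def prs {n : ℕ} (G : SimpleGraph (Fin n)) [DecidableRel G.Adj] (v : Fin n) : Finset (Fin n × Fin n) :=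
  univ.filter fun p => p.1 < p.2 ∧ G.Adj v p.1 ∧ G.Adj v p.2 ∧ G.Adj p.1 p.2

theorem tdeg_eq {n : ℕ} (G : SimpleGraph (Fin n)) [DecidableRel G.Adj] (v : Fin n) :
    tdeg G v = (prs G v).card := by
  symm
  unfold tdeg
  refine Finset.card_bij (fun p _ => {v, p.1, p.2}) ?_ ?_ ?_
  · rintro ⟨u, w⟩ hp
    simp only [prs, mem_filter, mem_univ, true_and] at hp
    obtain ⟨h1, h2, h3, h4⟩ := hp
    rw [mem_filter, SimpleGraph.mem_cliqueFinset_iff, SimpleGraph.is3Clique_iff]
    exact ⟨⟨v, u, w, h2, h3, h4, rfl⟩, by simp⟩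
  · rintro ⟨u, w⟩ hp ⟨u', w'⟩ hp' h
    simp only [prs, mem_filter, mem_univ, true_and] at hp hp'
    obtain ⟨h1, h2, h3, h4⟩ := hp
    obtain ⟨h1', h2', h3', h4'⟩ := hp'
    simp only at h
    have e1 : ({u, w} : Finset (Fin n)) = {u', w'} := by
      have e2 : ({v, u, w} : Finset (Fin n)).erase v = ({v, u', w'} : Finset (Fin n)).erase v := by rw [h]
      rw [erase_insert, erase_insert] at e2
      · exact e2
      · simp only [mem_insert, mem_singleton, not_or]
        exact ⟨h2'.ne, h3'.ne⟩
      · simp only [mem_insert, mem_singleton, not_or]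
        exact ⟨h2.ne, h3.ne⟩
    have hu : u ∈ ({u', w'} : Finset (Fin n)) := by rw [← e1]; simp
    have hw : w ∈ ({u', w'} : Finset (Fin n)) := by rw [← e1]; simp
    simp only [mem_insert, mem_singleton] at hu hw
    rcases hu with rfl | rfl <;> rcases hw with rfl | rfl
    · exact absurd h1 (lt_irrefl _)
    · rfl
    · exact absurd h1 (not_lt.2 h1'.le)
    · exact absurd h1 (lt_irrefl _)
  · intro s hs
    rw [mem_filter, SimpleGraph.mem_cliqueFinset_iff, SimpleGraph.isNClique_iff] at hs
    obtain ⟨⟨hc, h3⟩, hv⟩ := hs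
    have h2 : (s.erase v).card = 2 := by rw [card_erase_of_mem hv, h3]
    obtain ⟨a, b, hab, he⟩ := Finset.card_eq_two.1 h2
    have hs' : s = {v, a, b} := by
      rw [← he, Finset.insert_erase hv]
    have ha : a ∈ s.erase v := by rw [he]; simp
    have hb : b ∈ s.erase v := by rw [he]; simp
    rw [mem_erase] at ha hb
    have A1 : G.Adj v a := hc (by exact_mod_cast hv) (by exact_mod_cast ha.2) ha.1.symm
    have A2 : G.Adj v b := hc (by exact_mod_cast hv) (by exact_mod_cast hb.2) hb.1.symm
    have A3 : G.Adj a b := hc (by exact_mod_cast ha.2) (by exact_mod_cast hb.2) hab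
    rcases lt_or_gt_of_ne hab with h | h
    · refine ⟨(a, b), ?_, hs'.symm⟩
      simp only [prs, mem_filter, mem_univ, true_and]
      exact ⟨h, A1, A2, A3⟩
    · refine ⟨(b, a), ?_, ?_⟩
      · simp only [prs, mem_filter, mem_univ, true_and]
        exact ⟨h, A2, A1, A3.symm⟩
      · rw [hs']
        simp only
        rw [Finset.pair_comm]

/-- the rows of the adjacency matrix, as binary numbers -/
def rows : List ℕ := [1120760, 4121152, 351416, 2110901, 2139821, 2372765, 1821187, 275773, 3040393, 969810, 1119164, 3039813, 2647213, 1120698, 1153862, 4080210, 3040325, 1936194, 232358, 1284930, 2810947, 1153338]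

/-- adjacency -/
def adj (i j : Fin 22) : Bool := (rows.getD i.val 0).testBit j.val

/-- The graph, with 22 vertices. -/
def gr : SimpleGraph (Fin 22) where
  Adj i j := adj i j = true
  symm := ⟨by decide +kernel⟩
  loopless := ⟨by decide +kernel⟩

instance : DecidableRel gr.Adj := fun i j => inferInstanceAs (Decidable (adj i j = true))

theorem regular : gr.IsRegularOfDegree 10 := by
  unfold SimpleGraph.IsRegularOfDegree
  decide +kernel

theorem distinct : ∀ v w : Fin 22, (prs gr v).card = (prs gr w).card → v = w := by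
  decide +kernel

end Pool.Agent.J6H37.TD
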